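import Pool.Agent.H28.PL.DefsK

/-!
# EU1: Euclid's algorithm, odd type (`MP_cd3997_nt`)
-/

set_option autoImplicit false

open Finset

namespace Pool.Agent.H32.PLP

open Pool.Agent.H28.PL

theorem odd_B {B : ℕ → ℕ} (hB : Euc1 B) (b : ℕ) (hb : Odd b) : Odd (B b) := by
  have h := hB.2.1 b hb
  rw [Nat.odd_iff] at hb ⊢
  omega

theorem chi_B {B : ℕ → ℕ} (hB : Euc1 B) (b : ℕ) (hb : Odd b) :
    ZMod.χ₄ (B b : ZMod 4) = ZMod.χ₄ (b : ZMod 4) := by
  have h := hB.2.1 b hb
  have h1 : (B b : ZMod 4) = (b : ZMod 4) := by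
    rw [← ZMod.natCast_mod (B b) 4, h, ZMod.natCast_mod]
  rw [h1]

theorem euc1_step {B : ℕ → ℕ} (hB : Euc1 B) (a b : ℕ) (ha : Odd a) (hb : Odd b) (hab : b < a)
    (hc : Nat.Coprime a b)
    (ih : ∀ x y : ℕ, Odd x → Odd y → Nat.Coprime x y → x + y < a + b →
      jacobiSym (B x) (B y) = jacobiSym x y) : jacobiSym (B a) (B b) = jacobiSym a b := by
  have hoB := odd_B hB b hb
  have hcB := chi_B hB b hb
  obtain ⟨_, h4, h5, h6⟩ := hB
  obtain ⟨a', ha'⟩ := ha
  obtain ⟨b', hb'⟩ := hb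
  by_cases h2 : 2 * b < a
  · have hk : Odd (a - 2 * b) := ⟨a' - b' - b' - 1, by omega⟩
    have e1 : a - 2 * b + 2 * b = a := by omega
    have h7 := h5 b (a - 2 * b) ⟨b', hb'⟩ hk
    rw [e1] at h7
    have h8 : Nat.Coprime (a - 2 * b) b := by
      have h8 : Nat.Coprime (a - 2 * b + 2 * b) b := by rw [e1]; exact hc
      exact (Nat.coprime_add_mul_right_left (a - 2 * b) b 2).1 h8
    have h9 := ih _ _ hk ⟨b', hb'⟩ h8 (by omega)
    have h10 : jacobiSym (B a) (B b) = jacobiSym (B (a - 2 * b)) (B b) :=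
      jacobiSym.mod_left' ((Int.modEq_iff_dvd).2 h7).symm
    have h11 : jacobiSym (a : ℤ) b = jacobiSym ((a - 2 * b : ℕ) : ℤ) b := by
      refine jacobiSym.mod_left' ((Int.modEq_iff_dvd).2 ?_).symm
      rw [Nat.cast_sub (by omega)]
      push_cast
      exact ⟨2, by ring⟩
    rw [h10, h9, h11]
  · have hk : Odd (2 * b - a) := ⟨b' + b' - a', by omega⟩
    have e1 : 2 * b - (2 * b - a) = a := by omega
    have h7 := h6 b (2 * b - a) ⟨b', hb'⟩ hk (by omega)
    rw [e1] at h7
    have h8 : Nat.Coprime (2 * b - a) b := by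
      rw [Nat.coprime_comm] at hc ⊢
      have h9 : b.gcd (2 * b - a) ∣ b.gcd a := by
        refine Nat.dvd_gcd (Nat.gcd_dvd_left _ _) ?_
        have h10 : b.gcd (2 * b - a) ∣ 2 * b - (2 * b - a) :=
          Nat.dvd_sub ((Nat.gcd_dvd_left _ _).mul_left 2) (Nat.gcd_dvd_right _ _)
        rwa [e1] at h10
      rw [Nat.Coprime] at hc ⊢
      rw [hc] at h9
      exact Nat.dvd_one.1 h9
    have h9 := ih _ _ hk ⟨b', hb'⟩ h8 (by omega)
    have h10 : jacobiSym (B a) (B b) = jacobiSym (-(B (2 * b - a) : ℤ)) (B b) := by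
      refine jacobiSym.mod_left' ((Int.modEq_iff_dvd).2 ?_).symm
      rw [sub_neg_eq_add]
      exact h7
    have h11 : jacobiSym (a : ℤ) b = jacobiSym (-((2 * b - a : ℕ) : ℤ)) b := by
      refine jacobiSym.mod_left' ((Int.modEq_iff_dvd).2 ?_).symm
      rw [Nat.cast_sub (by omega)]
      push_cast
      exact ⟨2, by ring⟩
    rw [h10, h11, jacobiSym.neg _ hoB, jacobiSym.neg _ ⟨b', hb'⟩, h9, hcB]

theorem pf_EU1 : T_EU1 := by
  intro B hB
  have key : ∀ n a b : ℕ, a + b = n → Odd a → Odd b → Nat.Coprime a b →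
      jacobiSym (B a) (B b) = jacobiSym a b := by
    intro n
    induction n using Nat.strong_induction_on with
    | _ n IH =>
      intro a b hn ha hb hc
      have ih : ∀ x y : ℕ, Odd x → Odd y → Nat.Coprime x y → x + y < a + b →
          jacobiSym (B x) (B y) = jacobiSym x y := fun x y hx hy hxy hlt =>
        IH (x + y) (by omega) x y rfl hx hy hxy
      rcases lt_trichotomy a b with h | h | h
      · have h1 : jacobiSym (B b) (B a) = jacobiSym b a :=
          euc1_step hB b a hb ha h hc.symm (fun x y hx hy hxy hlt => ih x y hx hy hxy (by omega))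
        have h2 := jacobiSym.quadratic_reciprocity (odd_B hB a ha) (odd_B hB b hb)
        have h3 := jacobiSym.quadratic_reciprocity ha hb
        rw [h2, h3, h1]
        have h4 := hB.2.1 a ha
        have h5 := hB.2.1 b hb
        have e1 : B a / 2 % 2 = a / 2 % 2 := by omega
        have e2 : B b / 2 % 2 = b / 2 % 2 := by omega
        have e3 : (B a / 2 * (B b / 2)) % 2 = (a / 2 * (b / 2)) % 2 := by
          rw [Nat.mul_mod, e1, e2, ← Nat.mul_mod]
        have e4 : ((-1 : ℤ)) ^ (B a / 2 * (B b / 2)) = (-1) ^ (a / 2 * (b / 2)) := by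
          rw [neg_one_pow_eq_pow_mod_two, e3, ← neg_one_pow_eq_pow_mod_two]
        rw [e4]
      · subst h
        have h1 : a = 1 := (Nat.coprime_self a).1 hc
        subst h1
        rw [hB.1]
      · exact euc1_step hB a b ha hb h hc ih
  intro a b ha hb hc
  exact key _ a b rfl ha hb hc

end Pool.Agent.H32.PLP
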