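import Pool.Agent.H28.PL.DefsK
import Pool.Agent.H67.PL.Rec

/-!
# JR1: the ratio sequences, `c = 1` (`MP_cd3997_nt`)
-/

set_option autoImplicit false

open Finset

namespace Pool.Agent.H32.PLP

open Pool.Agent.H28.PL Pool.Agent.H67.PL

theorem AA_one (n : ℕ) : AA 1 n = ve n := by
  unfold AA
  rw [if_neg one_ne_zero, Nat.sub_self, pow_zero, one_mul]

theorem ve_mod_eight (j : ℕ) : ve (2 * j + 1) % 8 = 2 * (2 * j + 1) % 8 ∧
    (ve (2 * j + 2)) % 8 = (if j % 2 = 0 then 6 else 2) := by
  induction j with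
  | zero => simp [ve]
  | succ j ih =>
    have e1 : 2 * (j + 1) + 1 = (2 * j + 1) + 2 := by ring
    have e2 : 2 * (j + 1) + 2 = (2 * j + 2) + 2 := by ring
    have h1 : ve ((2 * j + 1) + 2) = 2 * ve (2 * j + 2) + ve (2 * j + 1) := by rw [ve]
    have h2 : ve ((2 * j + 2) + 2) = 2 * ve (2 * j + 3) + ve (2 * j + 2) := by rw [ve]
    rw [e1, e2, h1, h2]
    have e3 : 2 * j + 3 = 2 * j + 1 + 2 := by ring
    rw [e3, h1]
    obtain ⟨i1, i2⟩ := ih
    rcases Nat.even_or_odd' j with ⟨m, hm | hm⟩
    · have hj : j % 2 = 0 := by omega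
      have hj1 : (j + 1) % 2 ≠ 0 := by omega
      rw [if_pos hj] at i2
      rw [if_neg hj1]
      omega
    · have hj : j % 2 ≠ 0 := by omega
      have hj1 : (j + 1) % 2 = 0 := by omega
      rw [if_neg hj] at i2
      rw [if_pos hj1]
      omega

theorem ve_pos (n : ℕ) : 0 < ve n := by
  induction n using Nat.strong_induction_on with
  | _ n ih =>
    match n with
    | 0 => simp [ve]
    | 1 => simp [ve]
    | n + 2 =>
      rw [ve]
      have := ih n (by omega)
      omega

theorem pf_JR1 (hd : T_ADV) : T_JR1 := by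
  intro g hg
  have hpg : 0 < ve g := ve_pos g
  set B : ℕ → ℕ := fun k => AA 1 (g * k) / AA 1 g with hB
  have hBk : ∀ k, Odd k → ve g * B k = ve (g * k) := by
    intro k hk
    have h := hd 1 g k hg hk
    rw [AA_one, AA_one] at h
    show ve g * (AA 1 (g * k) / AA 1 g) = _
    rw [AA_one, AA_one]
    exact Nat.mul_div_cancel' h
  have hmod : ∀ n, Odd n → ve n % 8 = 2 * n % 8 := by
    rintro n ⟨j, rfl⟩
    exact (ve_mod_eight j).1
  have hcancel : ∀ x y : ℤ, (ve g : ℤ) * x ∣ (ve g : ℤ) * y → x ∣ y := by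
    intro x y h
    exact (mul_dvd_mul_iff_left (by positivity)).1 h
  refine ⟨?_, ?_, ?_, ?_⟩
  · have h := hBk 1 odd_one
    rw [mul_one] at h
    exact Nat.eq_of_mul_eq_mul_left hpg (by rw [h, mul_one])
  · intro k hk
    have h1 := hmod (g * k) (hg.mul hk)
    have h2 := hmod g hg
    rw [← hBk k hk] at h1
    have h3 : (2 * g * B k) % 8 = (2 * g * k) % 8 := by
      calc (2 * g * B k) % 8 = (2 * g % 8 * B k) % 8 := by rw [Nat.mod_mul_mod]
        _ = (ve g % 8 * B k) % 8 := by rw [h2]
        _ = (ve g * B k) % 8 := by rw [Nat.mod_mul_mod]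
        _ = (2 * g * k) % 8 := by rw [h1, mul_assoc]
    have h4 : g * B k ≡ g * k [MOD 4] := by
      have e1 : 2 * g * B k = 2 * (g * B k) := by ring
      have e2 : 2 * g * k = 2 * (g * k) := by ring
      rw [e1, e2] at h3
      unfold Nat.ModEq
      omega
    have h5 : Nat.Coprime 4 g := by
      have : Nat.Coprime 2 g := (Nat.coprime_two_left).mpr hg
      exact Nat.Coprime.pow_left 2 this
    exact Nat.ModEq.cancel_left_of_coprime h5 h4
  · intro b k hb hk
    have hkb : Odd (k + 2 * b) := hk.add_even (even_two_mul b)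
    apply hcancel
    have h1 := ve_id (g * b) (g * k)
    rw [(hg.mul hb).neg_one_pow] at h1
    have e1 : 2 * (g * b) + g * k = g * (k + 2 * b) := by ring
    rw [e1, ← hBk _ hkb, ← hBk k hk, ← hBk b hb] at h1
    push_cast at h1
    refine ⟨ve (g * b + g * k), ?_⟩
    linear_combination h1
  · intro b k hb hk hkb
    have hkb' : Odd (2 * b - k) := by
      obtain ⟨x, hx⟩ := hb
      obtain ⟨y, hy⟩ := hk
      exact ⟨x + x - y, by omega⟩
    apply hcancel
    rcases le_total b k with h | h
    · obtain ⟨t, ht⟩ : ∃ t, k = b + t := ⟨k - b, by omega⟩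
      have hte : Even t := by
        obtain ⟨x, hx⟩ := hb
        obtain ⟨y, hy⟩ := hk
        exact ⟨y - x, by omega⟩
      have h1 := ve_id (g * t) (g * (b - t))
      rw [(hte.mul_left g).neg_one_pow, one_mul] at h1
      have e1 : 2 * (g * t) + g * (b - t) = g * k := by
        have : 2 * t + (b - t) = k := by omega
        rw [← this]
        ring
      have e2 : g * t + g * (b - t) = g * b := by
        have : t + (b - t) = b := by omega
        rw [← Nat.mul_add, this]
      have e3 : 2 * b - k = b - t := by omega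
      rw [e3] at hkb' ⊢
      rw [e1, e2, ← hBk k hk, ← hBk b hb, ← hBk _ hkb'] at h1
      push_cast at h1
      refine ⟨ve (g * t), ?_⟩
      linear_combination h1
    · obtain ⟨t, ht⟩ : ∃ t, b = k + t := ⟨b - k, by omega⟩
      have hte : Even t := by
        obtain ⟨x, hx⟩ := hb
        obtain ⟨y, hy⟩ := hk
        exact ⟨x - y, by omega⟩
      have h1 := ve_id (g * t) (g * k)
      rw [(hte.mul_left g).neg_one_pow, one_mul] at h1
      have e1 : 2 * (g * t) + g * k = g * (2 * b - k) := by
        have : 2 * b - k = 2 * t + k := by omega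
        rw [this]
        ring
      have e2 : g * t + g * k = g * b := by
        rw [ht]
        ring
      rw [e1, e2, ← hBk k hk, ← hBk b hb, ← hBk _ hkb'] at h1
      push_cast at h1
      refine ⟨ve (g * t), ?_⟩
      linear_combination h1

end Pool.Agent.H32.PLP
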