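import Pool.Agent.H28.PL.DefsK

/-!
# PPD: the product of `exp Λ(d)` over the divisors (`MP_cd3997_nt`)
-/

set_option autoImplicit false

open Finset

namespace Pool.Agent.H32.PLP

open Pool.Agent.H28.PL

theorem PD_pos (n : ℕ) : 0 < PD n := by
  unfold PD
  split_ifs with h
  · exact Nat.minFac_pos n
  · exact one_pos

theorem log_PD (n : ℕ) : Real.log (PD n) = ArithmeticFunction.vonMangoldt n := by
  classical
  rw [ArithmeticFunction.vonMangoldt_apply]
  unfold PD
  by_cases h : IsPrimePow n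
  · rw [if_pos h, if_pos h]
  · rw [if_neg h, if_neg h, Nat.cast_one, Real.log_one]

theorem pf_PPD : T_PPD := by
  intro n hn
  have h1 : Real.log ((∏ d ∈ n.divisors, PD d : ℕ) : ℝ) = Real.log n := by
    rw [Nat.cast_prod, Real.log_prod (fun d _ => by
      have := PD_pos d
      positivity), ← ArithmeticFunction.vonMangoldt_sum]
    exact Finset.sum_congr rfl fun d _ => log_PD d
  have h2 : (0 : ℝ) < ((∏ d ∈ n.divisors, PD d : ℕ) : ℝ) := by
    have : 0 < ∏ d ∈ n.divisors, PD d := Finset.prod_pos fun d _ => PD_pos d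
    exact_mod_cast this
  have h3 : (0 : ℝ) < (n : ℝ) := by exact_mod_cast hn
  exact_mod_cast Real.log_injOn_pos (Set.mem_Ioi.mpr h2) (Set.mem_Ioi.mpr h3) h1

end Pool.Agent.H32.PLP
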